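import Mathlib
import Pool.Agent.X200.ZScott

/-!
MP_8267fa_gt, Q1: the topology `t_1^Z` on `C(Y, Z)` need not be completely regular (not even
regular) for completely regular `Z`.
-/

set_option autoImplicit false

namespace Pool.Agent.Results.MP_8267fa_gt.NotRegular

open Set Topology

/-- The family `O_Z(Y)` of the preimages of open sets of `Z` under continuous maps `Y → Z`. -/
def OZ (Y Z : Type) [TopologicalSpace Y] [TopologicalSpace Z] : Set (Set Y) :=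
  {W | ∃ (f : C(Y, Z)) (U : Set Z), IsOpen U ∧ W = f ⁻¹' U}

/-- The Z-Scott topology `τ_1^Z` on the open subsets of `Y`: its members `H` satisfy (α) and (β). -/
def ZScott (Y Z : Type) [TopologicalSpace Y] [TopologicalSpace Z] : Set (Set (Set Y)) :=
  {H | (∀ V ∈ H, IsOpen V) ∧
    (∀ W ∈ H, W ∈ OZ Y Z → ∀ V, IsOpen V → W ⊆ V → V ∈ H) ∧
    (∀ 𝒲 ⊆ OZ Y Z, ⋃₀ 𝒲 ∈ H → ∃ 𝒱 ⊆ 𝒲, 𝒱.Finite ∧ ⋃₀ 𝒱 ∈ H)}

/-- The topology `t_1^Z` on `C(Y, Z)`. -/
def t1Z (Y Z : Type) [TopologicalSpace Y] [TopologicalSpace Z] : TopologicalSpace C(Y, Z) :=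
  TopologicalSpace.generateFrom
    {S | ∃ H ∈ ZScott Y Z, ∃ U : Set Z, IsOpen U ∧ S = {f : C(Y, Z) | f ⁻¹' U ∈ H}}

theorem result : ∃ (Y Z : Type) (_ : TopologicalSpace Y) (_ : TopologicalSpace Z),
    Countable Y ∧ T4Space Y ∧ Finite Z ∧ DiscreteTopology Z ∧ CompletelyRegularSpace Z ∧
      ¬ @RegularSpace C(Y, Z) (t1Z Y Z) ∧ ¬ @CompletelyRegularSpace C(Y, Z) (t1Z Y Z) :=
  Pool.Agent.X200.ZScott.main

end Pool.Agent.Results.MP_8267fa_gt.NotRegular
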